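import Pool.Agent.Q148.NucDes

set_option autoImplicit false

/-!
Point sets of size `q + 1` with `q - 1` nuclei in the affine plane `AG(2, q)`.
-/

namespace Pool.Agent.Results.MP_49538b_co.ManyNuclei

variable {F : Type*} [Field F]

/-- The line through `P` with direction `d`. -/
def line (P d : F × F) : Set (F × F) := {x | ∃ t : F, x = P + t • d}

/-- `P` is a nucleus of `S`: it is not in `S`, and every line through `P` contains a point of
`S`. -/
def IsNucleus (S : Set (F × F)) (P : F × F) : Prop :=
  P ∉ S ∧ ∀ d : F × F, d ≠ 0 → (line P d ∩ S).Nonempty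

/-- The set of the nuclei of `S`. -/
def nuclei (S : Set (F × F)) : Set (F × F) := {P | IsNucleus S P}

/-- Type (i): `S` consists of the points of a line and of one point outside the line. -/
def IsTypeOne (S : Set (F × F)) : Prop :=
  ∃ P d Q : F × F, d ≠ 0 ∧ Q ∉ line P d ∧ S = line P d ∪ {Q}

/-- The ten lines of a Desargues configuration with centre `0`, the two triangles `1 2 3` and
`4 5 6` in perspective from `0`, and the axis `7 8 9`. -/
def desarguesLines : Finset (Finset (Fin 10)) :=
  {{0, 1, 4}, {0, 2, 5}, {0, 3, 6}, {2, 3, 7}, {1, 3, 8}, {1, 2, 9}, {5, 6, 7}, {4, 6, 8},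
    {4, 5, 9}, {7, 8, 9}}

/-- `T` is the point set of a Desargues configuration: it consists of ten different points
`p 0, ..., p 9`, and three different ones of them are collinear if and only if they are on one of
the ten lines of the configuration. -/
def IsDesargues (T : Set (F × F)) : Prop :=
  ∃ p : Fin 10 → F × F, Function.Injective p ∧ Set.range p = T ∧
    ∀ i j k : Fin 10, i ≠ j → j ≠ k → i ≠ k →
      (Collinear F ({p i, p j, p k} : Set (F × F)) ↔ {i, j, k} ∈ desarguesLines)

/-- A set of `q + 1` points of `AG(2, q)` with exactly `q - 1` nuclei is a line with a point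
outside it, or `q = 5` and the set together with its nuclei is a Desargues configuration. -/
theorem result (F : Type*) [Field F] [Fintype F] (S : Set (F × F))
    (hS : S.ncard = Fintype.card F + 1) (hN : (nuclei S).ncard = Fintype.card F - 1) :
    IsTypeOne S ∨ (Fintype.card F = 5 ∧ IsDesargues (S ∪ nuclei S)) := by
  classical
  have hfS : (S.toFinite.toFinset : Set (F × F)) = S := Set.Finite.coe_toFinset _
  have hfN : ((nuclei S).toFinite.toFinset : Set (F × F)) = nuclei S := Set.Finite.coe_toFinset _
  set T := S.toFinite.toFinset with hT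
  set N := (nuclei S).toFinite.toFinset with hNd
  have hTc : T.card = Fintype.card F + 1 := by
    rw [← hS, ← Set.ncard_coe_finset, hfS]
  have hNc : N.card = Fintype.card F - 1 := by
    rw [← hN, ← Set.ncard_coe_finset, hfN]
  have hmT : ∀ x, x ∈ T ↔ x ∈ S := fun x => by rw [← Finset.mem_coe, hfS]
  have hNn : ∀ P ∈ N, Q148.Nuc.Nucl T P := by
    intro P hP
    rw [← Finset.mem_coe, hfN] at hP
    refine ⟨fun h => hP.1 ((hmT P).1 h), ?_⟩
    intro d hd
    obtain ⟨x, ⟨t, rfl⟩, hx⟩ := hP.2 d hd
    exact ⟨t, (hmT _).2 hx⟩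
  rcases Q148.Nuc.typeOne_or_data hTc hNn hNc with h | ⟨n, L, D⟩
  · left
    obtain ⟨P, d, Q, hd, hQ, hx⟩ := h
    refine ⟨P, d, Q, hd, ?_, ?_⟩
    · rintro ⟨t, ht⟩
      exact hQ t ht.symm
    · ext x
      rw [← hmT, hx]
      rfl
  · right
    have h := L.des hTc hNn hNc D
    rw [hfS, hfN] at h
    exact h

end Pool.Agent.Results.MP_49538b_co.ManyNuclei
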